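import Pool.Agent.W425.ND.Stm

/-!
Part K3 of project ND: points of the torus.
-/

set_option autoImplicit false
set_option linter.unusedSectionVars false

namespace Pool.Agent.W839.ND

open Pool.Agent.W425.ND

/-- Roots of complex units. -/
lemma root_units (n : ℤ) (hn : n ≠ 0) (x : ℂˣ) : ∃ y : ℂˣ, y ^ n = x := by
  have h1 : ∀ m : ℕ, 0 < m → ∀ x : ℂˣ, ∃ y : ℂˣ, y ^ m = x := by
    intro m hm x
    obtain ⟨z, hz⟩ := IsAlgClosed.exists_pow_nat_eq (x : ℂ) hm
    have hz0 : z ≠ 0 := by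
      rintro rfl
      rw [zero_pow hm.ne'] at hz
      exact x.ne_zero hz.symm
    exact ⟨Units.mk0 z hz0, Units.ext hz⟩
  rcases Int.natAbs_eq n with h | h
  · obtain ⟨y, hy⟩ := h1 n.natAbs (Int.natAbs_pos.2 hn) x
    refine ⟨y, ?_⟩
    rw [h, zpow_natCast]
    exact hy
  · obtain ⟨y, hy⟩ := h1 n.natAbs (Int.natAbs_pos.2 hn) x
    refine ⟨y⁻¹, ?_⟩
    rw [h, inv_zpow, zpow_neg, inv_inv, zpow_natCast]
    exact hy

noncomputable instance : DivisibleBy (Additive ℂˣ) ℤ :=
  divisibleByOfSMulRightSurj (Additive ℂˣ) ℤ fun {n} hn x => by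
    obtain ⟨y, hy⟩ := root_units n hn x.toMul
    exact ⟨Additive.ofMul y, by
      change Additive.ofMul (y ^ n) = x
      rw [hy]
      rfl⟩

/-- Extension of a homomorphism. -/
lemma exists_ext {M N : Type} [AddCommGroup M] [AddCommGroup N] (p : M →ₗ[ℤ] N)
    (φ : M →ₗ[ℤ] Additive ℂˣ) (h : ∀ x, p x = 0 → φ x = 0) :
    ∃ ψ : N →ₗ[ℤ] Additive ℂˣ, ∀ x, ψ (p x) = φ x := by
  let Q := M ⧸ LinearMap.ker p
  let f : Q →ₗ[ℤ] N := (LinearMap.ker p).liftQ p le_rfl
  have hf : Function.Injective f := by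
    rw [← LinearMap.ker_eq_bot]
    exact Submodule.ker_liftQ_eq_bot _ _ _ le_rfl
  let g : Q →ₗ[ℤ] Additive ℂˣ := (LinearMap.ker p).liftQ φ fun x hx => h x hx
  obtain ⟨ψ, hψ⟩ := (Module.Baer.of_divisible (Additive ℂˣ)).extension_property f hf g
  refine ⟨ψ, fun x => ?_⟩
  have h1 := congrArg (fun l : Q →ₗ[ℤ] Additive ℂˣ => l (Submodule.Quotient.mk x)) hψ
  exact h1

theorem k3 : TaskK3 := by
  classical
  intro r N v c hT
  let cu : Fin r → ℂˣ := fun j => if h : c j ≠ 0 then Units.mk0 (c j) h else 1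
  have hcu : ∀ j, c j ≠ 0 → (cu j : ℂ) = c j := by
    intro j hj
    change ((if h : c j ≠ 0 then Units.mk0 (c j) h else 1 : ℂˣ) : ℂ) = c j
    rw [dif_pos hj]
    rfl
  let W := (Fin N → ℤ) × ℤ
  let p : (Fin r → ℤ) →ₗ[ℤ] W × (Fin r → ℤ) :=
    { toFun := fun k => ((fun i => ∑ j, k j * (v j i : ℤ), ∑ j, k j),
        fun j => if c j = 0 then k j else 0)
      map_add' := fun k k' => by
        refine Prod.ext (Prod.ext (funext fun i => ?_) ?_) (funext fun j => ?_)
        · change ∑ j, (k j + k' j) * (v j i : ℤ) = ∑ j, k j * (v j i : ℤ) +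
            ∑ j, k' j * (v j i : ℤ)
          rw [← Finset.sum_add_distrib]
          exact Finset.sum_congr rfl fun j _ => add_mul _ _ _
        · change ∑ j, (k j + k' j) = ∑ j, k j + ∑ j, k' j
          exact Finset.sum_add_distrib
        · change (if c j = 0 then k j + k' j else 0) = (if c j = 0 then k j else 0) +
            if c j = 0 then k' j else 0
          split_ifs
          · rfl
          · rfl
      map_smul' := fun a k => by
        refine Prod.ext (Prod.ext (funext fun i => ?_) ?_) (funext fun j => ?_)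
        · change ∑ j, (a * k j) * (v j i : ℤ) = a * ∑ j, k j * (v j i : ℤ)
          rw [Finset.mul_sum]
          exact Finset.sum_congr rfl fun j _ => mul_assoc _ _ _
        · change ∑ j, (a * k j) = a * ∑ j, k j
          rw [Finset.mul_sum]
        · change (if c j = 0 then a * k j else 0) = a * if c j = 0 then k j else 0
          split_ifs
          · rfl
          · rw [mul_zero] }
  let φ : (Fin r → ℤ) →ₗ[ℤ] Additive ℂˣ :=
    { toFun := fun k => Additive.ofMul (∏ j, cu j ^ k j)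
      map_add' := fun k k' => by
        change ∏ j, cu j ^ (k j + k' j) = (∏ j, cu j ^ k j) * ∏ j, cu j ^ k' j
        rw [← Finset.prod_mul_distrib]
        exact Finset.prod_congr rfl fun j _ => zpow_add _ _ _
      map_smul' := fun a k => by
        change ∏ j, cu j ^ (a * k j) = (∏ j, cu j ^ k j) ^ a
        rw [← Finset.prod_zpow]
        exact Finset.prod_congr rfl fun j _ => by rw [mul_comm, zpow_mul] }
  have hker : ∀ k, p k = 0 → φ k = 0 := by
    intro k hk
    have h1 : ∀ i, ∑ j, k j * (v j i : ℤ) = 0 := fun i =>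
      congrFun (congrArg Prod.fst (congrArg Prod.fst hk)) i
    have h2 : ∑ j, k j = 0 := congrArg Prod.snd (congrArg Prod.fst hk)
    have h3 : ∀ j, c j = 0 → k j = 0 := by
      intro j hj
      have h4 : (if c j = 0 then k j else 0) = 0 := congrFun (congrArg Prod.snd hk) j
      rwa [if_pos hj] at h4
    let n : Fin r → ℕ := fun j => (k j).toNat
    let n' : Fin r → ℕ := fun j => (-k j).toNat
    have hn : ∀ j, (n j : ℤ) - n' j = k j := fun j => by
      change ((k j).toNat : ℤ) - ((-k j).toNat : ℤ) = k j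
      exact Int.toNat_sub_toNat_neg (k j)
    have e1 : ∑ j, n j = ∑ j, n' j := by
      have h5 : ((∑ j, n j : ℕ) : ℤ) - ((∑ j, n' j : ℕ) : ℤ) = 0 := by
        push_cast
        rw [← Finset.sum_sub_distrib, Finset.sum_congr rfl fun j _ => hn j, h2]
      omega
    have e2 : ∀ i, ∑ j, n j * v j i = ∑ j, n' j * v j i := by
      intro i
      have h5 : ((∑ j, n j * v j i : ℕ) : ℤ) - ((∑ j, n' j * v j i : ℕ) : ℤ) = 0 := by
        push_cast
        rw [← Finset.sum_sub_distrib, ← h1 i]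
        refine Finset.sum_congr rfl fun j _ => ?_
        rw [← hn j]
        ring
      omega
    have e3 := hT n n' e1 e2
    have hc : ∀ (m : Fin r → ℕ), (∀ j, c j = 0 → m j = 0) → ∀ j,
        c j ^ m j = ((cu j ^ m j : ℂˣ) : ℂ) := by
      intro m hm j
      by_cases h : c j = 0
      · rw [hm j h, pow_zero, pow_zero]
        rfl
      · rw [Units.val_pow_eq_pow_val, hcu j h]
    have hnz : ∀ j, c j = 0 → n j = 0 := fun j hj => by
      change (k j).toNat = 0
      rw [h3 j hj]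
      rfl
    have hnz' : ∀ j, c j = 0 → n' j = 0 := fun j hj => by
      change (-k j).toNat = 0
      rw [h3 j hj]
      rfl
    rw [Finset.prod_congr rfl fun j _ => hc n hnz j, Finset.prod_congr rfl fun j _ => hc n' hnz' j,
      ← Units.coe_prod, ← Units.coe_prod] at e3
    have e4 : ∏ j, cu j ^ n j = ∏ j, cu j ^ n' j := Units.ext e3
    change ∏ j, cu j ^ k j = 1
    have e5 : ∏ j, cu j ^ k j = (∏ j, cu j ^ n j) * (∏ j, cu j ^ n' j)⁻¹ := by
      rw [← Finset.prod_inv_distrib, ← Finset.prod_mul_distrib]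
      refine Finset.prod_congr rfl fun j _ => ?_
      rw [← hn j, zpow_sub, zpow_natCast, zpow_natCast]
    rw [e5, e4, mul_inv_cancel]
  obtain ⟨ψ, hψ⟩ := exists_ext p φ hker
  let ψ1 : (Fin N → ℤ) →ₗ[ℤ] Additive ℂˣ :=
    ψ.comp ((LinearMap.inl ℤ W (Fin r → ℤ)).comp (LinearMap.inl ℤ (Fin N → ℤ) ℤ))
  let zz : Fin N → ℂˣ := fun i => (ψ1 (fun j => if i = j then 1 else 0)).toMul
  let tt : ℂˣ := (ψ (((0 : Fin N → ℤ), (1 : ℤ)), (0 : Fin r → ℤ))).toMul
  refine ⟨fun i => (zz i : ℂ), (tt : ℂ), Units.ne_zero _, fun i => Units.ne_zero _,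
    fun j hj => ?_⟩
  have h1 := hψ (Pi.single j 1)
  have h2 : φ (Pi.single j 1) = Additive.ofMul (cu j) := by
    change Additive.ofMul (∏ l, cu l ^ (Pi.single j (1 : ℤ) : Fin r → ℤ) l) = _
    rw [Finset.prod_eq_single j]
    · rw [Pi.single_eq_same, zpow_one]
    · intro l _ hl
      rw [Pi.single_eq_of_ne hl, zpow_zero]
    · intro h
      exact absurd (Finset.mem_univ _) h
  have h3 : p (Pi.single j 1) = (((fun i => (v j i : ℤ)), (0 : ℤ)), (0 : Fin r → ℤ)) +
      (((0 : Fin N → ℤ), (1 : ℤ)), (0 : Fin r → ℤ)) := by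
    refine Prod.ext (Prod.ext (funext fun i => ?_) ?_) (funext fun l => ?_)
    · change ∑ l, (Pi.single j (1 : ℤ) : Fin r → ℤ) l * (v l i : ℤ) = (v j i : ℤ) + 0
      rw [Finset.sum_eq_single j]
      · rw [Pi.single_eq_same, one_mul, add_zero]
      · intro l _ hl
        rw [Pi.single_eq_of_ne hl, zero_mul]
      · intro h
        exact absurd (Finset.mem_univ _) h
    · change ∑ l, (Pi.single j (1 : ℤ) : Fin r → ℤ) l = 0 + 1
      rw [Finset.sum_eq_single j]
      · rw [Pi.single_eq_same, zero_add]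
      · intro l _ hl
        rw [Pi.single_eq_of_ne hl]
      · intro h
        exact absurd (Finset.mem_univ _) h
    · change (if c l = 0 then (Pi.single j (1 : ℤ) : Fin r → ℤ) l else 0) = 0 + 0
      rw [add_zero]
      split_ifs with h
      · have hl : l ≠ j := by
          rintro rfl
          exact hj h
        rw [Pi.single_eq_of_ne hl]
      · rfl
  rw [h2, h3, map_add] at h1
  have h4 : ψ (((fun i => (v j i : ℤ)), (0 : ℤ)), (0 : Fin r → ℤ)) =
      Additive.ofMul (∏ i, zz i ^ v j i) := by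
    have h5 : ψ (((fun i => (v j i : ℤ)), (0 : ℤ)), (0 : Fin r → ℤ)) =
      ψ1 (fun i => (v j i : ℤ)) := rfl
    rw [h5, LinearMap.pi_apply_eq_sum_univ]
    change ∏ i, (zz i ^ ((v j i : ℕ) : ℤ)) = ∏ i, zz i ^ v j i
    exact Finset.prod_congr rfl fun i _ => zpow_natCast _ _
  rw [h4] at h1
  have h5 : (∏ i, zz i ^ v j i) * tt = cu j := h1
  have h6 := congrArg (fun u : ℂˣ => (u : ℂ)) h5
  change ((((∏ i, zz i ^ v j i) * tt : ℂˣ)) : ℂ) = (cu j : ℂ) at h6
  rw [hcu j hj] at h6
  rw [← h6]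
  push_cast
  ring

end Pool.Agent.W839.ND
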